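import Pool.Agent.Lib.MP_3d2757_nt.Fin

/-!
# MP_3d2757_nt : the unramified twisted GGP local period integral

The identity of Q1 is proved for every `n` and all data, together with the exact range of
absolute convergence.  The model: `V = E^n` with the skew-Hermitian form of a Gram matrix `J` in
`GL_n(O_E)` (an `O_E`-basis of a self-dual lattice), so that the lattice is `O_E^n`, `GL(V)` is
`GL_n(E)` and the maximal compact subgroups are `GL_n(O_E)` and `U(J) ∩ GL_n(O_E)`.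
-/

open MeasureTheory Finset

namespace Pool.Agent.Results.MP_3d2757_nt.TwistedGGP

/-- the compact group `GL_n(O_E)`: matrices `g` such that `g` and `g⁻¹` have entries of norm
at most `1` -/
def maxCompact (E : Type) [NormedField E] (n : ℕ) : Set (GL (Fin n) E) :=
  {g | (∀ i j, ‖(g : Matrix (Fin n) (Fin n) E) i j‖ ≤ 1) ∧
    ∀ i j, ‖((g⁻¹ : GL (Fin n) E) : Matrix (Fin n) (Fin n) E) i j‖ ≤ 1}

/-- the diagonal matrix `diag(ϖ^{L_1}, …, ϖ^{L_n})` -/
noncomputable def diagPow {E : Type} [NormedField E] (ϖ : Eˣ) {n : ℕ} (L : Fin n → ℤ) :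
    GL (Fin n) E where
  val := Matrix.diagonal fun i => ((ϖ ^ (L i) : Eˣ) : E)
  inv := Matrix.diagonal fun i => ((ϖ ^ (-L i) : Eˣ) : E)
  val_inv := by
    rw [Matrix.diagonal_mul_diagonal, ← Matrix.diagonal_one]
    congr 1
    funext i
    rw [← Units.val_mul, ← zpow_add]
    simp
  inv_val := by
    rw [Matrix.diagonal_mul_diagonal, ← Matrix.diagonal_one]
    congr 1
    funext i
    rw [← Units.val_mul, ← zpow_add]
    simp

/-- the exponent vector `(1^r, 0^{n-r})` -/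
def firstOnes (n r : ℕ) : Fin n → ℤ := fun i => if (i : ℕ) < r then 1 else 0

/-- the double coset `GL_n(O_E) diag(ϖ^r, 1^{n-r}) GL_n(O_E)` -/
def heckeCoset {E : Type} [NormedField E] (ϖ : Eˣ) (n r : ℕ) : Set (GL (Fin n) E) :=
  {g | ∃ k₁ ∈ maxCompact E n, ∃ k₂ ∈ maxCompact E n, g = k₁ * diagPow ϖ (firstOnes n r) * k₂}

/-- the elementary symmetric function `e_r(x)` -/
noncomputable def elemSymm {n : ℕ} (x : Fin n → ℂ) (r : ℕ) : ℂ :=
  ∑ S ∈ powersetCard r (univ : Finset (Fin n)), ∏ i ∈ S, x i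

/-- `x` are Satake parameters of the spherical vector `f`: for every `r ≤ n` the Hecke operator of
`GL_n(O_E) diag(ϖ^r, 1^{n-r}) GL_n(O_E)` multiplies `f` by `q_E^{r(n-r)/2} e_r(x)`, where
`q_E = q^2` -/
def IsSatake {E : Type} [NormedField E] (ϖ : Eˣ) (q : ℕ) {n : ℕ} {H : Type}
    [NormedAddCommGroup H] [InnerProductSpace ℂ H] [CompleteSpace H]
    (π : GL (Fin n) E →* (H ≃ₗᵢ[ℂ] H)) [MeasurableSpace (GL (Fin n) E)]
    (ν : Measure (GL (Fin n) E)) (f : H) (x : Fin n → ℂ) : Prop :=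
  ∀ r ≤ n, ∫ g in heckeCoset ϖ n r, π g f ∂ν = ((q : ℂ) ^ (r * (n - r)) * elemSymm x r) • f

/-- the cardinality of the residue field of a nonarchimedean field -/
noncomputable def resCard (F : Type) [NontriviallyNormedField F] [IsUltrametricDist F] : ℕ :=
  Nat.card (IsLocalRing.ResidueField (@Valued.integer F _ NNReal _ NormedField.toValued))

section Fields

variable {F E : Type} [NontriviallyNormedField F] [NormedField E] [NormedAlgebra F E]

/-- `ϖ` is a uniformizer of `F` -/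
def IsUniformizer (ϖ : Fˣ) : Prop := ‖(ϖ : F)‖ < 1 ∧ ∀ x : F, ‖x‖ < 1 → ‖x‖ ≤ ‖(ϖ : F)‖

/-- `ψ` has conductor `O_F`: it is trivial on `O_F` and not on `ϖ⁻¹ O_F` -/
def HasConductorO (ϖ : Fˣ) (ψ : AddChar F Circle) : Prop :=
  (∀ x, ‖x‖ ≤ 1 → ψ x = 1) ∧ ∃ x, ‖x‖ ≤ ‖(ϖ : F)‖⁻¹ ∧ ψ x ≠ 1

/-- `E/F` is quadratic and unramified (the same value group), with nontrivial automorphism `σ` -/
def IsUnramifiedQuadratic (σ : E ≃ₐ[F] E) : Prop :=
  Module.finrank F E = 2 ∧ (∀ x : E, ∃ y : F, ‖y‖ = ‖x‖) ∧ σ ≠ AlgEquiv.refl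

/-- `μ` is an unramified conjugate-symplectic character of `E^×`: it is trivial on the units of
`O_E`, and its restriction to `F^×` is `ω_{E/F}`, which is `1` on norms and `-1` elsewhere -/
def IsUnramifiedConjSymplectic (σ : E ≃ₐ[F] E) (μ : Eˣ →* ℂˣ) : Prop :=
  (∀ x : Eˣ, ‖(x : E)‖ = 1 → μ x = 1) ∧
    (∀ y : Fˣ, (∃ z : E, z * σ z = algebraMap F E y) → μ (Units.map (algebraMap F E) y) = 1) ∧
    ∀ y : Fˣ, (¬ ∃ z : E, z * σ z = algebraMap F E y) → μ (Units.map (algebraMap F E) y) = -1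

/-- `J` is the Gram matrix of a skew-Hermitian form on `E^n` for which `O_E^n` is self-dual -/
def IsSkewUnimodular (σ : E ≃ₐ[F] E) {n : ℕ} (J : Matrix (Fin n) (Fin n) E) : Prop :=
  (∀ i j, ‖J i j‖ ≤ 1) ∧ ‖J.det‖ = 1 ∧ ∀ i j, σ (J i j) = - J j i

/-- the form `h(v,w) = ∑ v_i J_ij σ(w_j)` on `E^n` -/
def herm (σ : E ≃ₐ[F] E) {n : ℕ} (J : Matrix (Fin n) (Fin n) E) (v w : Fin n → E) : E :=
  ∑ i, ∑ j, v i * J i j * σ (w j)

/-- the unitary group of the form: matrices `g` with `gᵀ J σ(g) = J` -/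
def unitaryGp (σ : E ≃ₐ[F] E) {n : ℕ} (J : Matrix (Fin n) (Fin n) E) :
    Subgroup (GL (Fin n) E) where
  carrier := {g | (g : Matrix (Fin n) (Fin n) E).transpose * J *
    (g : Matrix (Fin n) (Fin n) E).map σ = J}
  mul_mem' := fun ha hb => MPtg.UJ_mul_mem σ J ha hb
  one_mem' := MPtg.UJ_one_mem σ J
  inv_mem' := fun ha => MPtg.UJ_inv_mem σ J ha

/-- the family `A` of unitary operators leaves no proper nonzero closed subspace invariant -/
def IsIrreducible {X H : Type} [NormedAddCommGroup H] [InnerProductSpace ℂ H]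
    (A : X → (H ≃ₗᵢ[ℂ] H)) : Prop :=
  ∀ W : Submodule ℂ H, IsClosed (W : Set H) → (∀ g, ∀ v ∈ W, A g v ∈ W) → W = ⊥ ∨ W = ⊤

/-- the family `A` of unitary operators is strongly continuous -/
def IsStronglyContinuous {X H : Type} [TopologicalSpace X] [NormedAddCommGroup H]
    [InnerProductSpace ℂ H] (A : X → (H ≃ₗᵢ[ℂ] H)) : Prop :=
  ∀ v, Continuous fun g => A g v

/-- `ρ` is the irreducible unitary representation of the Heisenberg group of `V = E^n` with the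
symplectic form `Tr_{E/F} h` and central character `ψ` -/
def IsHeisenberg (ψ : AddChar F Circle) (σ : E ≃ₐ[F] E) {n : ℕ}
    (J : Matrix (Fin n) (Fin n) E) {S : Type} [NormedAddCommGroup S] [InnerProductSpace ℂ S]
    (ρ : (Fin n → E) → (S ≃ₗᵢ[ℂ] S)) : Prop :=
  (∀ v w s, ρ v (ρ w s) = (ψ (Algebra.trace F E (herm σ J v w) / 2) : ℂ) • ρ (v + w) s) ∧
    IsStronglyContinuous ρ ∧ IsIrreducible ρ

/-- `ω` is a Weil representation of the unitary group on the space of the Heisenberg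
representation `ρ`: `ω(g) ρ(v) = ρ(g v) ω(g)` -/
def IsWeil {σ : E ≃ₐ[F] E} {n : ℕ} {J : Matrix (Fin n) (Fin n) E} {S : Type}
    [NormedAddCommGroup S] [InnerProductSpace ℂ S] (ρ : (Fin n → E) → (S ≃ₗᵢ[ℂ] S))
    (ω : ↥(unitaryGp σ J) →* (S ≃ₗᵢ[ℂ] S)) : Prop :=
  ∀ (g : ↥(unitaryGp σ J)) (v : Fin n → E) (s : S), ω g (ρ v s) =
    ρ (((g : GL (Fin n) E) : Matrix (Fin n) (Fin n) E).mulVec v) (ω g s)

/-- the integrand `⟨g f, f⟩ conj ⟨g φ, φ⟩` (inner products linear in the first variable) -/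
noncomputable def integrand {σ : E ≃ₐ[F] E} {n : ℕ} {J : Matrix (Fin n) (Fin n) E}
    {H S : Type} [NormedAddCommGroup H] [InnerProductSpace ℂ H] [NormedAddCommGroup S]
    [InnerProductSpace ℂ S] (π : GL (Fin n) E →* (H ≃ₗᵢ[ℂ] H)) (f : H)
    (ω : ↥(unitaryGp σ J) →* (S ≃ₗᵢ[ℂ] S)) (φ : S) (g : ↥(unitaryGp σ J)) : ℂ :=
  inner ℂ f (π (g : GL (Fin n) E) f) * (starRingEnd ℂ) (inner ℂ φ (ω g φ))

end Fields

/-- `ζ_E(k) = (1 - q_E^{-k})⁻¹`, `q_E = q^2` -/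
noncomputable def zetaE (q : ℕ) (k : ℕ) : ℂ := (1 - (((q : ℂ) ^ 2)⁻¹) ^ k)⁻¹

/-- `L(k, ω_{E/F}^k) = (1 - (-1)^k q^{-k})⁻¹` -/
noncomputable def Lomega (q : ℕ) (k : ℕ) : ℂ := (1 - (-1) ^ k * ((q : ℂ)⁻¹) ^ k)⁻¹

/-- `L(1/2, Π × ^σΠ^∨ × μ⁻¹) = ∏_{i,j} (1 - m⁻¹ x_i x_j⁻¹ q_E^{-1/2})⁻¹`, `m = μ(ϖ)`, where
`q_E^{-1/2} = q⁻¹` -/
noncomputable def LRankinSelberg (q : ℕ) {n : ℕ} (m : ℂ) (x : Fin n → ℂ) : ℂ :=
  ∏ i, ∏ j, (1 - m⁻¹ * (x i * (x j)⁻¹) * (q : ℂ)⁻¹)⁻¹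

/-- `L(1, Π, Ad) = ∏_{i,j} (1 - x_i x_j⁻¹ q_E⁻¹)⁻¹` -/
noncomputable def LAdjoint (q : ℕ) {n : ℕ} (x : Fin n → ℂ) : ℂ :=
  ∏ i, ∏ j, (1 - (x i * (x j)⁻¹) * ((q : ℂ) ^ 2)⁻¹)⁻¹

/-- the right-hand side of the conjecture -/
noncomputable def conjValue (q : ℕ) {n : ℕ} (m : ℂ) (x : Fin n → ℂ) : ℂ :=
  ((∏ k ∈ Icc 1 n, zetaE q k) / ∏ k ∈ Icc 1 n, Lomega q k) *
    (LRankinSelberg q m x / LAdjoint q x)

/-- The unramified twisted GGP identity.

`F` is a nonarchimedean local field of residue characteristic different from `2`, with uniformizer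
`ϖ`; `ψ` is an additive character of conductor `O_F`; `E/F` is the unramified quadratic extension
with involution `σ`; `μ` is an unramified conjugate-symplectic character of `E^×`.  `J` is the
Gram matrix of a skew-Hermitian form on `V = E^n` for which `O_E^n` is self-dual.  `dh` and `dg`
are the Haar measures of `GL_n(E)` and of `U(V)` for which the maximal compact subgroups have
measure `1`.  `π` is an irreducible unitary representation with spherical unit vector `f`, and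
`ω` is a Weil representation of `U(V)` with `K`-fixed unit vector `φ`.

Then `f` has Satake parameters, and for any Satake parameters `x` of `f` the integral converges
absolutely exactly when `|x_i| < q |x_j|` for all `i, j`, and then it has the conjectured value. -/
theorem result
    (F : Type) [NontriviallyNormedField F] [IsUltrametricDist F] [LocallyCompactSpace F]
    (residue_char : ‖(2 : F)‖ = 1) (ϖ : Fˣ) (hϖ : IsUniformizer ϖ)
    (ψ : AddChar F Circle) (hψ : HasConductorO ϖ ψ)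
    (E : Type) [NormedField E] [NormedAlgebra F E] (σ : E ≃ₐ[F] E)
    (hE : IsUnramifiedQuadratic σ) (μ : Eˣ →* ℂˣ) (hμ : IsUnramifiedConjSymplectic σ μ)
    (n : ℕ) (J : Matrix (Fin n) (Fin n) E) (hJ : IsSkewUnimodular σ J)
    [MeasurableSpace (GL (Fin n) E)] [BorelSpace (GL (Fin n) E)]
    (dh : Measure (GL (Fin n) E)) [dh.IsHaarMeasure] (hdh : dh (maxCompact E n) = 1)
    (dg : Measure ↥(unitaryGp σ J)) [dg.IsHaarMeasure]
    (hdg : dg {g | (g : GL (Fin n) E) ∈ maxCompact E n} = 1)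
    (H : Type) [NormedAddCommGroup H] [InnerProductSpace ℂ H] [CompleteSpace H]
    (π : GL (Fin n) E →* (H ≃ₗᵢ[ℂ] H)) (hπ : IsStronglyContinuous π) (hπ' : IsIrreducible π)
    (f : H) (hf : ‖f‖ = 1) (hf' : ∀ g ∈ maxCompact E n, π g f = f)
    (S : Type) [NormedAddCommGroup S] [InnerProductSpace ℂ S] [CompleteSpace S]
    (ρ : (Fin n → E) → (S ≃ₗᵢ[ℂ] S)) (hρ : IsHeisenberg ψ σ J ρ)
    (ω : ↥(unitaryGp σ J) →* (S ≃ₗᵢ[ℂ] S)) (hω : IsWeil ρ ω)
    (φ : S) (hφ : ‖φ‖ = 1)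
    (hφ' : ∀ g : ↥(unitaryGp σ J), (g : GL (Fin n) E) ∈ maxCompact E n → ω g φ = φ) :
    (∃ x : Fin n → ℂ, (∀ i, x i ≠ 0) ∧
      IsSatake (Units.map (algebraMap F E) ϖ) (resCard F) π dh f x) ∧
    ∀ x : Fin n → ℂ, (∀ i, x i ≠ 0) →
      IsSatake (Units.map (algebraMap F E) ϖ) (resCard F) π dh f x →
      (Integrable (integrand π f ω φ) dg ↔ ∀ i j, ‖x i‖ < resCard F * ‖x j‖) ∧
      (Integrable (integrand π f ω φ) dg → ∫ g, integrand π f ω φ g ∂dg =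
        conjValue (resCard F) (μ (Units.map (algebraMap F E) ϖ) : ℂ) x) :=
  @MPtg.final F _ _ _ residue_char ϖ hϖ ψ hψ.1 hψ.2 E _ _ hE.1 hE.2.1 σ hE.2.2 μ hμ.1 hμ.2.1
    hμ.2.2 n J hJ.1 hJ.2.1 hJ.2.2 _ _ dh _ hdh dg ‹dg.IsHaarMeasure› hdg H _ _ _ π hπ hπ' f hf
    hf' S _ _ _ ρ hρ.1 hρ.2.1 hρ.2.2 ω hω φ hφ hφ'

end Pool.Agent.Results.MP_3d2757_nt.TwistedGGP
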